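import Pool.Agent.H2.T4.EDG

open Finset

namespace Pool.T4

namespace PIAaux

section gen

variable {X Y : Type*} [TopologicalSpace X] [TopologicalSpace Y]

theorem qmap_trans (g : C(X, Y)) {a b c : X} (α : Path.Homotopic.Quotient a b)
    (β : Path.Homotopic.Quotient b c) : (α.trans β).map g = (α.map g).trans (β.map g) := by
  obtain ⟨α, rfl⟩ := Path.Homotopic.Quotient.mk_surjective α
  obtain ⟨β, rfl⟩ := Path.Homotopic.Quotient.mk_surjective β
  rw [← Path.Homotopic.Quotient.mk_trans, ← Path.Homotopic.Quotient.mk_map,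
    ← Path.Homotopic.Quotient.mk_map, ← Path.Homotopic.Quotient.mk_map, Path.map_trans,
    Path.Homotopic.Quotient.mk_trans]

theorem qmap_symm (g : C(X, Y)) {a b : X} (α : Path.Homotopic.Quotient a b) :
    (α.symm).map g = (α.map g).symm := by
  obtain ⟨α, rfl⟩ := Path.Homotopic.Quotient.mk_surjective α
  rfl

theorem qmap_refl (g : C(X, Y)) (a : X) :
    (Path.Homotopic.Quotient.refl a).map g = .refl (g a) := rfl

theorem fg_map (f : C(X, Y)) (a : X) (p : FundamentalGroup X a) :
    FundamentalGroup.map f a p = Path.Homotopic.Quotient.map p f := rfl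

theorem bij_base (f : C(X, Y)) {a b : X} (δ : Path.Homotopic.Quotient a b)
    (h : Function.Bijective (FundamentalGroup.map f a)) :
    Function.Bijective (FundamentalGroup.map f b) := by
  constructor
  · intro γ γ' hγ
    rw [fg_map, fg_map] at hγ
    have h1 : FundamentalGroup.map f a ((δ.trans γ).trans δ.symm) =
        FundamentalGroup.map f a ((δ.trans γ').trans δ.symm) := by
      rw [fg_map, fg_map, qmap_trans, qmap_trans, qmap_trans, qmap_trans, hγ]
    have h2 : (δ.trans γ).trans δ.symm = (δ.trans γ').trans δ.symm := h.1 h1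
    have h3 : δ.symm.trans (((δ.trans γ).trans δ.symm).trans δ) =
        δ.symm.trans (((δ.trans γ').trans δ.symm).trans δ) := by rw [h2]
    have key : ∀ β : Path.Homotopic.Quotient b b,
        δ.symm.trans (((δ.trans β).trans δ.symm).trans δ) = β := by
      intro β
      rw [Path.Homotopic.Quotient.trans_assoc (δ.trans β), Path.Homotopic.Quotient.symm_trans,
        Path.Homotopic.Quotient.trans_refl, ← Path.Homotopic.Quotient.trans_assoc,
        Path.Homotopic.Quotient.symm_trans, Path.Homotopic.Quotient.refl_trans]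
    rw [key, key] at h3
    exact h3
  · intro β
    obtain ⟨α, hα⟩ := h.2 (((δ.map f).trans β).trans (δ.map f).symm)
    rw [fg_map] at hα
    refine ⟨(δ.symm.trans α).trans δ, ?_⟩
    rw [fg_map, qmap_trans, qmap_trans, qmap_symm, hα]
    rw [Path.Homotopic.Quotient.trans_assoc, Path.Homotopic.Quotient.trans_assoc,
      Path.Homotopic.Quotient.symm_trans, Path.Homotopic.Quotient.trans_refl,
      ← Path.Homotopic.Quotient.trans_assoc, Path.Homotopic.Quotient.symm_trans,
      Path.Homotopic.Quotient.refl_trans]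

/-- winding number of the image of a class -/
def wnd (W : Path.Homotopic.Quotient (0 : AddCircle (1 : ℝ)) 0 → ℤ) (g : C(X, AddCircle (1 : ℝ)))
    {a b : X} (ha : 0 = g a) (hb : 0 = g b) (α : Path.Homotopic.Quotient a b) : ℤ :=
  W ((α.map g).cast ha hb)

theorem wnd_trans (W : Path.Homotopic.Quotient (0 : AddCircle (1 : ℝ)) 0 → ℤ)
    (hW : ∀ p q, W (p.trans q) = W p + W q) (g : C(X, AddCircle (1 : ℝ)))
    {a b c : X} (ha : 0 = g a) (hb : 0 = g b) (hc : 0 = g c) (α : Path.Homotopic.Quotient a b)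
    (β : Path.Homotopic.Quotient b c) :
    wnd W g ha hc (α.trans β) = wnd W g ha hb α + wnd W g hb hc β := by
  rw [wnd, wnd, wnd, ← hW]
  congr 1
  obtain ⟨α, rfl⟩ := Path.Homotopic.Quotient.mk_surjective α
  obtain ⟨β, rfl⟩ := Path.Homotopic.Quotient.mk_surjective β
  rw [← Path.Homotopic.Quotient.mk_trans, ← Path.Homotopic.Quotient.mk_map,
    ← Path.Homotopic.Quotient.mk_map, ← Path.Homotopic.Quotient.mk_map,
    ← Path.Homotopic.Quotient.mk_cast, ← Path.Homotopic.Quotient.mk_cast,
    ← Path.Homotopic.Quotient.mk_cast, ← Path.Homotopic.Quotient.mk_trans]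
  congr 1
  ext t
  simp [Path.trans_apply]

theorem wnd_refl (W : Path.Homotopic.Quotient (0 : AddCircle (1 : ℝ)) 0 → ℤ)
    (hW : ∀ p q, W (p.trans q) = W p + W q) (g : C(X, AddCircle (1 : ℝ)))
    {a : X} (ha : 0 = g a) : wnd W g ha ha (.refl a) = 0 := by
  have h := wnd_trans W hW g ha ha ha (.refl a) (.refl a)
  rw [Path.Homotopic.Quotient.refl_trans] at h
  omega

theorem wnd_symm (W : Path.Homotopic.Quotient (0 : AddCircle (1 : ℝ)) 0 → ℤ)
    (hW : ∀ p q, W (p.trans q) = W p + W q) (g : C(X, AddCircle (1 : ℝ)))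
    {a b : X} (ha : 0 = g a) (hb : 0 = g b) (α : Path.Homotopic.Quotient a b) :
    wnd W g hb ha α.symm = - wnd W g ha hb α := by
  have h := wnd_trans W hW g ha hb ha α α.symm
  rw [Path.Homotopic.Quotient.trans_symm, wnd_refl W hW] at h
  omega

end gen

/-! ### the winding numbers of edge paths -/

section edge

variable {n : ℕ} {K : Cx n}

theorem alt_self (x : (Fin 2 → Fin n) → ℤ) (v : Fin n) : alt x v v = 0 := by
  simp [alt]

/-- coordinate of the map -/
def crd (f : C(Geom K, Torus4)) (i : Fin 4) : C(Geom K, AddCircle (1 : ℝ)) :=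
  ⟨fun p => f p i, (continuous_apply i).comp f.continuous⟩

theorem crd_vtx (x : Fin 4 → (Fin 2 → Fin n) → ℤ) (f : C(Geom K, Torus4)) (hf : IsMapOf K x f)
    (i : Fin 4) (v : Fin n) (p : Geom K) (hp : IsVtx v p) : 0 = crd f i p := by
  have h := hf.2 p v (by rw [hp v, if_pos rfl]; exact one_ne_zero) i
  change 0 = f p i
  rw [h]
  have : (∑ w, p.1 w * (alt (x i) v w : ℝ) : ℝ) = 0 := by
    apply Finset.sum_eq_zero
    intro w _
    rw [hp w]
    split_ifs with hw
    · subst hw; rw [alt_self]; simp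
    · simp
  rw [this]
  simp

theorem crd_seg (x : Fin 4 → (Fin 2 → Fin n) → ℤ) (f : C(Geom K, Torus4)) (hf : IsMapOf K x f)
    (i : Fin 4) (u v : Fin n) (p q : Geom K) (hq : IsVtx v q)
    (γ : Path p q) (hγ : IsSeg u v γ) (t : unitInterval) :
    crd f i (γ t) = ((t.1 * (alt (x i) u v : ℤ) : ℝ) : AddCircle (1 : ℝ)) := by
  by_cases ht : t = 1
  · subst ht
    rw [γ.target, ← crd_vtx x f hf i v q hq]
    rw [Set.Icc.coe_one, one_mul]
    symm
    rw [AddCircle.coe_eq_zero_iff]
    exact ⟨alt (x i) u v, by simp⟩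
  · have h1 : t.1 < 1 := lt_of_le_of_ne t.2.2 (fun h => ht (Subtype.ext h))
    have h0 : 0 ≤ t.1 := t.2.1
    have hu : (γ t).1 u ≠ 0 := by
      rw [hγ t u, if_pos rfl]
      split_ifs
      · linarith
      · linarith
    have h := hf.2 (γ t) u hu i
    change f (γ t) i = _
    rw [h]
    congr 1
    have : ∀ w, (γ t).1 w * (alt (x i) u w : ℝ) = (if w = v then t.1 * (alt (x i) u v : ℝ) else 0) := by
      intro w
      rw [hγ t w]
      by_cases hwv : w = v
      · rw [if_pos hwv, if_pos hwv, ← hwv]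
        by_cases hwu : w = u
        · rw [if_pos hwu, ← hwu, alt_self]; simp
        · rw [if_neg hwu]; ring
      · rw [if_neg hwv, if_neg hwv]
        by_cases hwu : w = u
        · rw [← hwu, alt_self]; simp
        · rw [if_neg hwu]; ring
    rw [Finset.sum_congr rfl (fun w _ => this w)]
    simp

variable (W : Path.Homotopic.Quotient (0 : AddCircle (1 : ℝ)) 0 → ℤ)
    (hW : ∀ p q, W (p.trans q) = W p + W q)
    (hlin : ∀ (m : ℤ) (γ : Path (0 : AddCircle (1 : ℝ)) 0),
      (∀ t : unitInterval, γ t = ((t.1 * m : ℝ) : AddCircle (1 : ℝ))) → W (.mk γ) = m)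
    (P : Fin n → Geom K) (ev : ∀ {u v : Fin n}, EPath K u v → Path.Homotopic.Quotient (P u) (P v))
    (hP : ∀ v, IsVtx v (P v)) (hnil : ∀ u, ev (.nil u) = .refl (P u))
    (hcons : ∀ (u v w : Fin n) (h : ({u, v} : Finset (Fin n)) ∈ K.faces) (e : EPath K v w),
      ev (.cons h e) = (ev (.cons h (.nil v))).trans (ev e))
    (hseg : ∀ (u v : Fin n) (h : ({u, v} : Finset (Fin n)) ∈ K.faces),
      ∃ γ : Path (P u) (P v), IsSeg u v γ ∧ ev (.cons h (.nil v)) = .mk γ)

include hW hlin hnil hcons hseg in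
theorem wev (x : Fin 4 → (Fin 2 → Fin n) → ℤ) (f : C(Geom K, Torus4)) (hf : IsMapOf K x f)
    (i : Fin 4) {u v : Fin n} (e : EPath K u v) :
    wnd W (crd f i) (crd_vtx x f hf i u (P u) (hP u)) (crd_vtx x f hf i v (P v) (hP v)) (ev e)
      = e.sum (x i) := by
  induction e with
  | nil u => rw [hnil, wnd_refl W hW, EPath.sum]
  | @cons u v w h e ih =>
    rw [hcons, wnd_trans W hW (crd f i) (crd_vtx x f hf i u (P u) (hP u))
      (crd_vtx x f hf i v (P v) (hP v)) (crd_vtx x f hf i w (P w) (hP w)), ih, EPath.sum]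
    congr 1
    obtain ⟨γ, hγ, h2⟩ := hseg u v h
    rw [h2, wnd]
    refine hlin _ ((γ.map (crd f i).continuous).cast (crd_vtx x f hf i u (P u) (hP u))
      (crd_vtx x f hf i v (P v) (hP v))) ?_
    intro t
    exact crd_seg x f hf i u v (P u) (P v) (hP v) γ hγ t

/-- the cocycle with values in the fundamental group given by chosen paths -/
noncomputable def gco (v₀ : Fin n) (τ : ∀ v, EPath K v₀ v) (u v : Fin n) :
    (FundamentalGroup (Geom K) (P v₀))ᵐᵒᵖ :=
  open Classical in
  if h : ({u, v} : Finset (Fin n)) ∈ K.faces then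
    MulOpposite.op (((ev (τ u)).trans (ev (.cons h (.nil v)))).trans (ev (τ v)).symm)
  else 1

theorem op_trans {X : Type} [TopologicalSpace X] {a : X} (p q : FundamentalGroup X a) :
    MulOpposite.op p * MulOpposite.op q =
      MulOpposite.op (Path.Homotopic.Quotient.trans p q : FundamentalGroup X a) := rfl

theorem cancel_mid {X : Type*} [TopologicalSpace X] {a b c d e : X}
    (p : Path.Homotopic.Quotient a b) (q : Path.Homotopic.Quotient b c)
    (r : Path.Homotopic.Quotient d c) (s : Path.Homotopic.Quotient c e)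
    (t : Path.Homotopic.Quotient e a) :
    (((p.trans q).trans r.symm).trans ((r.trans s).trans t)) = (p.trans (q.trans s)).trans t := by
  rw [Path.Homotopic.Quotient.trans_assoc, Path.Homotopic.Quotient.trans_assoc r s t,
    ← Path.Homotopic.Quotient.trans_assoc r.symm r, Path.Homotopic.Quotient.symm_trans,
    Path.Homotopic.Quotient.refl_trans, Path.Homotopic.Quotient.trans_assoc,
    Path.Homotopic.Quotient.trans_assoc, Path.Homotopic.Quotient.trans_assoc]

include hcons in
theorem gco_tri (htri : ∀ (u v w : Fin n) (_ : ({u, v, w} : Finset (Fin n)) ∈ K.faces)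
    (huv : ({u, v} : Finset (Fin n)) ∈ K.faces) (hvw : ({v, w} : Finset (Fin n)) ∈ K.faces)
    (huw : ({u, w} : Finset (Fin n)) ∈ K.faces),
    (ev (.cons huv (.cons hvw (.nil w)))) = ev (.cons huw (.nil w)))
    (v₀ : Fin n) (τ : ∀ v, EPath K v₀ v) (u v w : Fin n)
    (h : ({u, v, w} : Finset (Fin n)) ∈ K.faces) :
    gco P ev v₀ τ u v * gco P ev v₀ τ v w = gco P ev v₀ τ u w := by
  have huv : ({u, v} : Finset (Fin n)) ∈ K.faces := EDGaux.face_sub h (by
    intro i hi; simp only [Finset.mem_insert, Finset.mem_singleton] at hi ⊢; tauto) ⟨u, by simp⟩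
  have hvw : ({v, w} : Finset (Fin n)) ∈ K.faces := EDGaux.face_sub h (by
    intro i hi; simp only [Finset.mem_insert, Finset.mem_singleton] at hi ⊢; tauto) ⟨v, by simp⟩
  have huw : ({u, w} : Finset (Fin n)) ∈ K.faces := EDGaux.face_sub h (by
    intro i hi; simp only [Finset.mem_insert, Finset.mem_singleton] at hi ⊢; tauto) ⟨u, by simp⟩
  rw [gco, gco, gco, dif_pos huv, dif_pos hvw, dif_pos huw, op_trans, cancel_mid,
    ← hcons, htri u v w h huv hvw huw]

include hcons hnil in
theorem gco_val (v₀ : Fin n) (τ : ∀ v, EPath K v₀ v) {u v : Fin n} (e : EPath K u v) :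
    e.val (gco P ev v₀ τ) =
      MulOpposite.op (((ev (τ u)).trans (ev e)).trans (ev (τ v)).symm) := by
  induction e with
  | nil u =>
    rw [EPath.val, hnil, Path.Homotopic.Quotient.trans_refl, Path.Homotopic.Quotient.trans_symm]
    rfl
  | @cons u v w h e ih =>
    rw [EPath.val, ih, gco, dif_pos h, op_trans, cancel_mid, ← hcons]

end edge

theorem cast_inj {Y : Type*} [TopologicalSpace Y] {a b a' b' : Y} (h : a' = a) (h' : b' = b)
    (p q : Path.Homotopic.Quotient a b) (hpq : p.cast h h' = q.cast h h') : p = q := by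
  subst h h'
  rwa [Path.Homotopic.Quotient.cast_rfl_rfl, Path.Homotopic.Quotient.cast_rfl_rfl] at hpq

/-- proof at a vertex -/
theorem main (hE : EDGStmt) (hWin : WINStmt) (n : ℕ) (K : Cx n)
    (x : Fin 4 → (Fin 2 → Fin n) → ℤ)
    (f : C(Geom K, Torus4)) (v₀ : Fin n) (hc : ∀ v, Nonempty (EPath K v₀ v))
    (hf : IsMapOf K x f) (hA : AbelianPi K x v₀)
    (hS : ∀ i, ∃ e : EPath K v₀ v₀, ∀ j, e.sum (x j) = if i = j then 1 else 0)
    (p : Geom K) : Function.Bijective (FundamentalGroup.map f p) := by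
  obtain ⟨P, ev, hP, hnil, hcons, hseg, htri, hsurj⟩ := hE n K
  obtain ⟨W, hW, hinj, hlin⟩ := hWin
  obtain ⟨τ⟩ : Nonempty (∀ v, EPath K v₀ v) := ⟨fun v => (hc v).some⟩
  have hv : ∀ i v, 0 = crd f i (P v) := fun i v => crd_vtx x f hf i v (P v) (hP v)
  -- winding numbers of a class as function of its image
  have hwmap : ∀ i (α : Path.Homotopic.Quotient (P v₀) (P v₀)),
      wnd W (crd f i) (hv i v₀) (hv i v₀) α =
        W ((Path.Homotopic.proj i (α.map f)).cast (hv i v₀) (hv i v₀)) := by
    intro i α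
    rw [wnd]
    obtain ⟨α, rfl⟩ := Path.Homotopic.Quotient.mk_surjective α
    rfl
  have hev : ∀ i (e : EPath K v₀ v₀), wnd W (crd f i) (hv i v₀) (hv i v₀) (ev e) = e.sum (x i) :=
    fun i e => wev W hW hlin P ev hP hnil hcons hseg x f hf i e
  have key : Function.Bijective (FundamentalGroup.map f (P v₀)) := by
    constructor
    · intro α α' hα
      rw [fg_map, fg_map] at hα
      obtain ⟨e, he⟩ := hsurj v₀ v₀ (Path.Homotopic.Quotient.trans α (Path.Homotopic.Quotient.symm α'))
      have h1 : ∀ i, e.sum (x i) = 0 := by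
        intro i
        rw [← hev i e, he, wnd_trans W hW _ _ (hv i v₀), wnd_symm W hW _ (hv i v₀), hwmap, hwmap,
          hα]
        ring
      have h2 := hA _ (gco P ev v₀ τ) (gco_tri P ev hcons htri v₀ τ) e h1
      rw [gco_val P ev hnil hcons v₀ τ e, he] at h2
      have h3 := MulOpposite.op_injective (h2.trans MulOpposite.op_one.symm)
      have h3' : ((ev (τ v₀)).trans (Path.Homotopic.Quotient.trans α
        (Path.Homotopic.Quotient.symm α'))).trans (ev (τ v₀)).symm = .refl _ := h3
      have h4 : (ev (τ v₀)).symm.trans ((((ev (τ v₀)).trans (Path.Homotopic.Quotient.trans α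
        (Path.Homotopic.Quotient.symm α'))).trans (ev (τ v₀)).symm).trans (ev (τ v₀))) =
          .refl _ := by
        rw [h3', Path.Homotopic.Quotient.refl_trans, Path.Homotopic.Quotient.symm_trans]
      rw [Path.Homotopic.Quotient.trans_assoc ((ev (τ v₀)).trans _),
        Path.Homotopic.Quotient.symm_trans,
        Path.Homotopic.Quotient.trans_refl, ← Path.Homotopic.Quotient.trans_assoc,
        Path.Homotopic.Quotient.symm_trans, Path.Homotopic.Quotient.refl_trans] at h4
      have h5 : (Path.Homotopic.Quotient.trans α (Path.Homotopic.Quotient.symm α')).trans α' =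
          α' := by rw [h4, Path.Homotopic.Quotient.refl_trans]
      rw [Path.Homotopic.Quotient.trans_assoc, Path.Homotopic.Quotient.symm_trans,
        Path.Homotopic.Quotient.trans_refl] at h5
      exact h5
    · intro β
      choose e he using hS
      let ΦH : Fin 4 → (FundamentalGroup (Geom K) (P v₀) →* Multiplicative ℤ) := fun i =>
        MonoidHom.mk' (fun α => Multiplicative.ofAdd (wnd W (crd f i) (hv i v₀) (hv i v₀) α))
          (by
            intro a b
            rw [FundamentalGroup.mul_def, wnd_trans W hW _ _ (hv i v₀), ofAdd_add, mul_comm])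
      have hΦ : ∀ i α, ΦH i α = Multiplicative.ofAdd (wnd W (crd f i) (hv i v₀) (hv i v₀) α) :=
        fun i α => rfl
      let E : Fin 4 → FundamentalGroup (Geom K) (P v₀) := fun i => ev (e i)
      have hΦE : ∀ j i, ΦH j (E i) = Multiplicative.ofAdd (if i = j then (1 : ℤ) else 0) := by
        intro j i
        rw [hΦ, hev, he]
      let m : Fin 4 → ℤ := fun i => W ((Path.Homotopic.proj i β).cast (hv i v₀) (hv i v₀))
      let α : FundamentalGroup (Geom K) (P v₀) :=
        (E 0) ^ (m 0) * (E 1) ^ (m 1) * (E 2) ^ (m 2) * (E 3) ^ (m 3)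
      have hα : ∀ j, wnd W (crd f j) (hv j v₀) (hv j v₀) α = m j := by
        intro j
        apply Multiplicative.ofAdd.injective
        rw [← hΦ]
        rw [map_mul, map_mul, map_mul, map_zpow, map_zpow, map_zpow, map_zpow, hΦE, hΦE, hΦE, hΦE]
        fin_cases j <;> simp [← ofAdd_zsmul]
      refine ⟨α, ?_⟩
      rw [fg_map]
      rw [← Path.Homotopic.pi_proj (Path.Homotopic.Quotient.map α f), ← Path.Homotopic.pi_proj β]
      congr 1
      funext i
      apply cast_inj (hv i v₀) (hv i v₀)
      apply hinj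
      exact (hwmap i α).symm.trans (hα i)
  -- base change
  obtain ⟨v, hv'⟩ : ∃ v, p.1 v ≠ 0 := by
    by_contra h
    push Not at h
    have h2 := p.2.2.1
    rw [Finset.sum_congr rfl (fun i _ => h i)] at h2
    simp at h2
  have hPv : P v = EDGaux.vtx K v := by
    ext i
    rw [hP v i, EDGaux.vtx_apply]
  refine bij_base f ((ev (τ v)).trans
    ((Path.Homotopic.Quotient.mk (EDGaux.cone v p hv')).cast hPv rfl)) key

end PIAaux

theorem pia (h1 : EDGStmt) (h2 : WINStmt) : PIAStmt :=
  fun n K x f v₀ hc hf hA hS p => PIAaux.main h1 h2 n K x f v₀ hc hf hA hS p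

end Pool.T4
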