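import Pool.Agent.H11.T4.Stmts

open Finset unitInterval

namespace Pool.T4

namespace EDGaux

variable {n : ℕ}

/-- vertices as points -/
noncomputable def vtx (K : Cx n) (v : Fin n) : Geom K :=
  ⟨Pi.single v 1, by
    refine ⟨fun i => ?_, by simp, ?_⟩
    · by_cases h : i = v
      · subst h; simp
      · simp [Pi.single_eq_of_ne h]
    · have : (univ.filter fun i => (Pi.single v (1 : ℝ) : Fin n → ℝ) i ≠ 0) = {v} := by
        ext i
        by_cases h : i = v
        · subst h; simp
        · simp [h]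
      rw [this]
      exact K.singleton_mem v⟩

theorem vtx_apply (K : Cx n) (v i : Fin n) : (vtx K v).1 i = if i = v then 1 else 0 := by
  simp [vtx, Pi.single_apply]

/-- support -/
noncomputable def supp {K : Cx n} (p : Geom K) : Finset (Fin n) := univ.filter fun i => p.1 i ≠ 0

theorem supp_mem {K : Cx n} (p : Geom K) : supp p ∈ K.faces := p.2.2.2

theorem mem_supp {K : Cx n} (p : Geom K) (i : Fin n) : i ∈ supp p ↔ p.1 i ≠ 0 := by
  simp [supp]

theorem face_sub {K : Cx n} {s t : Finset (Fin n)} (hs : s ∈ K.faces) (hts : t ⊆ s)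
    (ht : t.Nonempty) : t ∈ K.faces := (K.isRelLowerSet_faces hs).2 hts ht

/-- the straight path in a closed simplex -/
noncomputable def sline {K : Cx n} (s : Finset (Fin n)) (hs : s ∈ K.faces) (p q : Geom K)
    (hp : ∀ i ∉ s, p.1 i = 0) (hq : ∀ i ∉ s, q.1 i = 0) : Path p q where
  toFun t := ⟨fun i => (1 - t.1) * p.1 i + t.1 * q.1 i, by
    refine ⟨fun i => ?_, ?_, ?_⟩
    · exact add_nonneg (mul_nonneg (by linarith [t.2.2]) (p.2.1 i)) (mul_nonneg t.2.1 (q.2.1 i))
    · rw [Finset.sum_add_distrib, ← Finset.mul_sum, ← Finset.mul_sum, p.2.2.1, q.2.2.1]; ring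
    · refine face_sub hs ?_ ?_
      · intro i hi
        by_contra h
        rw [Finset.mem_filter] at hi
        exact hi.2 (by simp only [hp i h, hq i h]; ring)
      · by_contra h
        rw [Finset.not_nonempty_iff_eq_empty] at h
        have h1 : ∀ i, (1 - t.1) * p.1 i + t.1 * q.1 i = 0 := by
          intro i
          by_contra h2
          have : i ∈ (univ.filter fun i => (1 - t.1) * p.1 i + t.1 * q.1 i ≠ 0) := by
            simp [h2]
          rw [h] at this
          exact absurd this (Finset.notMem_empty i)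
        have h3 : ∑ i, ((1 - t.1) * p.1 i + t.1 * q.1 i) = 1 := by
          rw [Finset.sum_add_distrib, ← Finset.mul_sum, ← Finset.mul_sum, p.2.2.1, q.2.2.1]; ring
        rw [Finset.sum_congr rfl (fun i _ => h1 i)] at h3
        simp at h3⟩
  continuous_toFun := by
    refine Continuous.subtype_mk ?_ _
    refine continuous_pi fun i => ?_
    fun_prop
  source' := by ext i; simp
  target' := by ext i; simp

theorem sline_apply {K : Cx n} (s : Finset (Fin n)) (hs : s ∈ K.faces) (p q : Geom K)
    (hp : ∀ i ∉ s, p.1 i = 0) (hq : ∀ i ∉ s, q.1 i = 0) (t : I) (i : Fin n) :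
    (sline s hs p q hp hq t).1 i = (1 - t.1) * p.1 i + t.1 * q.1 i := rfl

theorem sline_out {K : Cx n} (s : Finset (Fin n)) (hs : s ∈ K.faces) (p q : Geom K)
    (hp : ∀ i ∉ s, p.1 i = 0) (hq : ∀ i ∉ s, q.1 i = 0) (s' : Finset (Fin n))
    (hp' : ∀ i ∉ s', p.1 i = 0) (hq' : ∀ i ∉ s', q.1 i = 0) (t : I) (i : Fin n) (hi : i ∉ s') :
    (sline s hs p q hp hq t).1 i = 0 := by
  rw [sline_apply, hp' i hi, hq' i hi]; ring

/-- the edge as a path -/
noncomputable def seg {K : Cx n} (u v : Fin n) (h : ({u, v} : Finset (Fin n)) ∈ K.faces) :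
    Path (vtx K u) (vtx K v) :=
  sline {u, v} h (vtx K u) (vtx K v)
    (by intro i hi; rw [vtx_apply, if_neg]; rintro rfl; exact hi (by simp))
    (by intro i hi; rw [vtx_apply, if_neg]; rintro rfl; exact hi (by simp))

/-- evaluation of edge paths -/
noncomputable def ev {K : Cx n} : {u v : Fin n} → EPath K u v →
    Path.Homotopic.Quotient (vtx K u) (vtx K v)
  | u, _, .nil _ => .refl (vtx K u)
  | _, _, @EPath.cons _ _ u v _ h p => (Path.Homotopic.Quotient.mk (seg u v h)).trans (ev p)

theorem ev_nil {K : Cx n} (u : Fin n) : ev (EPath.nil (K := K) u) = .refl (vtx K u) := by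
  rw [ev]

theorem ev_cons {K : Cx n} {u v w : Fin n} (h : ({u, v} : Finset (Fin n)) ∈ K.faces)
    (e : EPath K v w) :
    ev (.cons h e) = (Path.Homotopic.Quotient.mk (seg u v h)).trans (ev e) := by
  rw [ev]

theorem ev_single {K : Cx n} {u v : Fin n} (h : ({u, v} : Finset (Fin n)) ∈ K.faces) :
    ev (.cons h (.nil v)) = Path.Homotopic.Quotient.mk (seg u v h) := by
  rw [ev_cons, ev_nil, Path.Homotopic.Quotient.trans_refl]

/-- concatenation -/
def app {K : Cx n} : {u v w : Fin n} → EPath K u v → EPath K v w → EPath K u w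
  | _, _, _, .nil _, e' => e'
  | _, _, _, .cons h e, e' => .cons h (app e e')

theorem ev_app {K : Cx n} {u v w : Fin n} (e : EPath K u v) (e' : EPath K v w) :
    ev (app e e') = (ev e).trans (ev e') := by
  induction e with
  | nil u => rw [app, ev_nil, Path.Homotopic.Quotient.refl_trans]
  | cons h e ih => rw [app, ev_cons, ev_cons, ih, Path.Homotopic.Quotient.trans_assoc]

/-- reparametrisation -/
theorem repar {X : Type*} [TopologicalSpace X] (g : C(I, X)) {c d : I} {a z : X}
    (δ δ' : Path a z) (f f' : Path c d) (h : ∀ s, δ s = g (f s)) (h' : ∀ s, δ' s = g (f' s)) :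
    δ.Homotopic δ' := by
  have ha : a = g c := by rw [← δ.source, h 0, f.source]
  have hz : z = g d := by rw [← δ.target, h 1, f.target]
  subst ha hz
  have h1 : δ = f.map g.continuous := by ext s; exact h s
  have h2 : δ' = f'.map g.continuous := by ext s; exact h' s
  rw [h1, h2]
  have : ContractibleSpace I := (convex_Icc (0 : ℝ) 1).contractibleSpace ⟨0, by simp⟩
  exact (SimplyConnectedSpace.paths_homotopic f f').map g

theorem repar_trans {X : Type*} [TopologicalSpace X] (g : C(I, X)) {c d e : I} {a b z : X}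
    (δ : Path a z) (δ1 : Path a b) (δ2 : Path b z) (f : Path c e) (f1 : Path c d) (f2 : Path d e)
    (h : ∀ s, δ s = g (f s)) (h1 : ∀ s, δ1 s = g (f1 s)) (h2 : ∀ s, δ2 s = g (f2 s)) :
    δ.Homotopic (δ1.trans δ2) := by
  refine repar g δ (δ1.trans δ2) f (f1.trans f2) h ?_
  intro s
  rw [Path.trans_apply, Path.trans_apply]
  split_ifs with hs
  · exact h1 _
  · exact h2 _

/-- the path from the vertex `w` to a point of its open star -/
noncomputable def cone {K : Cx n} (w : Fin n) (p : Geom K) (hw : p.1 w ≠ 0) : Path (vtx K w) p :=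
  sline (supp p) (supp_mem p) (vtx K w) p
    (by
      intro i hi; rw [vtx_apply, if_neg]; rintro rfl; exact hi ((mem_supp p _).2 hw))
    (by intro i hi; by_contra h; exact hi ((mem_supp p i).2 h))

theorem cone_star {K : Cx n} (w : Fin n) (p : Geom K) (hw : p.1 w ≠ 0) (t : I) :
    (cone w p hw t).1 w ≠ 0 := by
  have h0 : 0 < p.1 w := lt_of_le_of_ne (p.2.1 w) (Ne.symm hw)
  rw [cone, sline_apply, vtx_apply, if_pos rfl]
  have h1 := t.2.1
  have h2 := t.2.2
  rcases eq_or_lt_of_le h1 with h3 | h3
  · rw [← h3]; norm_num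
  · have : 0 < t.1 * p.1 w := mul_pos h3 h0
    have h4 : 0 ≤ 1 - t.1 := by linarith
    nlinarith

theorem cone_out {K : Cx n} (w : Fin n) (p : Geom K) (hw : p.1 w ≠ 0) (t : I) (i : Fin n)
    (hi : i ∉ supp p) : (cone w p hw t).1 i = 0 := by
  rw [cone]
  refine sline_out _ _ _ _ _ _ (supp p) ?_ ?_ t i hi
  · intro i hi; rw [vtx_apply, if_neg]; rintro rfl; exact hi ((mem_supp p _).2 hw)
  · intro i hi; by_contra h; exact hi ((mem_supp p i).2 h)

theorem seg_out {K : Cx n} (u v : Fin n) (h : ({u, v} : Finset (Fin n)) ∈ K.faces)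
    (s : Finset (Fin n)) (hu : u ∈ s) (hv : v ∈ s) (t : I) (i : Fin n) (hi : i ∉ s) :
    (seg u v h t).1 i = 0 := by
  rw [seg]
  refine sline_out _ _ _ _ _ _ s ?_ ?_ t i hi
  · intro i hi; rw [vtx_apply, if_neg]; rintro rfl; exact hi hu
  · intro i hi; rw [vtx_apply, if_neg]; rintro rfl; exact hi hv

theorem trans_mem {X : Type*} [TopologicalSpace X] {a b c : X} (γ : Path a b) (γ' : Path b c)
    (Q : X → Prop) (h : ∀ t, Q (γ t)) (h' : ∀ t, Q (γ' t)) (t : I) : Q ((γ.trans γ') t) := by
  rw [Path.trans_apply]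
  split_ifs
  · exact h _
  · exact h' _

theorem claim (hX : CVXStmt) (hL : CLSStmt) (K : Cx n) (u : Fin n) (q : Geom K)
    (γ : Path (vtx K u) q) (t : ℕ → I) (ht0 : t 0 = 0) (htm : Monotone t)
    (htc : ∀ k, ∃ i : Fin n, Set.Icc (t k) (t (k + 1)) ⊆ {r | (γ r).1 i ≠ 0}) (k : ℕ) :
    ∀ (x : Geom K) (δ : Path (vtx K u) x), (∀ s, δ s = γ (s * t k)) → ∀ (w : Fin n)
      (hw : x.1 w ≠ 0), ∃ e : EPath K u w, Path.Homotopic.Quotient.mk δ =
        (ev e).trans (.mk (cone w x hw)) := by
  induction k with
  | zero =>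
    intro x δ hδ w hw
    have hx : x = vtx K u := by rw [← δ.target, hδ 1, ht0]; simp
    subst hx
    have hwu : w = u := by
      by_contra h
      rw [vtx_apply, if_neg h] at hw
      exact hw rfl
    subst hwu
    refine ⟨.nil w, ?_⟩
    rw [ev_nil, Path.Homotopic.Quotient.refl_trans, Path.Homotopic.Quotient.eq]
    refine hL n K {w} (K.singleton_mem w) _ _ _ _ ?_ ?_
    · intro s i hi
      rw [hδ s, ht0, mul_zero, γ.source, vtx_apply, if_neg]
      rintro rfl; exact hi (by simp)
    · intro s i hi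
      refine cone_out _ _ _ s i ?_
      rw [mem_supp, not_not, vtx_apply, if_neg]
      rintro rfl; exact hi (by simp)
  | succ k ih =>
    intro x δ hδ w hw
    obtain ⟨i, hi⟩ := htc k
    have hle : t k ≤ t (k + 1) := htm (Nat.le_succ k)
    have hx : x = γ (t (k + 1)) := by rw [← δ.target, hδ 1, one_mul]
    -- the first part
    let δ1 : Path (vtx K u) (γ (t k)) :=
      { toFun := fun s => γ (s * t k)
        continuous_toFun := by fun_prop
        source' := by simp
        target' := by simp }
    let f2 : Path (t k) (t (k + 1)) :=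
      { toFun := fun s => t k ⊔ s * t (k + 1)
        continuous_toFun := by fun_prop
        source' := by simp
        target' := by simp [hle] }
    let δ2 : Path (γ (t k)) x := (f2.map γ.continuous).cast rfl hx
    let f : Path (0 : I) (t (k + 1)) :=
      { toFun := fun s => s * t (k + 1)
        continuous_toFun := by fun_prop
        source' := by simp
        target' := by simp }
    let f1 : Path (0 : I) (t k) :=
      { toFun := fun s => s * t k
        continuous_toFun := by fun_prop
        source' := by simp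
        target' := by simp }
    have h1 : δ.Homotopic (δ1.trans δ2) :=
      repar_trans γ.toContinuousMap δ δ1 δ2 f f1 f2 (fun s => hδ s) (fun s => rfl) (fun s => rfl)
    have hki : (γ (t k)).1 i ≠ 0 := hi ⟨le_refl _, hle⟩
    have hk1i : x.1 i ≠ 0 := by rw [hx]; exact hi ⟨hle, le_refl _⟩
    obtain ⟨e, he⟩ := ih (γ (t k)) δ1 (fun s => rfl) i hki
    have h2 : ((cone i (γ (t k)) hki).trans δ2).Homotopic (cone i x hk1i) := by
      refine hX n K i _ _ _ _ ?_ ?_
      · refine trans_mem _ _ (fun y : Geom K => y.1 i ≠ 0) (fun s => cone_star i _ hki s) ?_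
        intro s
        refine hi ⟨le_sup_left, sup_le hle ?_⟩
        calc s * t (k + 1) ≤ 1 * t (k + 1) := by
              gcongr
              exact s.2.2
          _ = t (k + 1) := one_mul _
      · exact fun s => cone_star i x hk1i s
    have hiw : ({i, w} : Finset (Fin n)) ∈ K.faces := by
      refine face_sub (supp_mem x) ?_ ⟨i, by simp⟩
      intro j hj
      rw [Finset.mem_insert, Finset.mem_singleton] at hj
      rw [mem_supp]
      rcases hj with rfl | rfl
      · exact hk1i
      · exact hw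
    have h3 : (cone i x hk1i).Homotopic ((seg i w hiw).trans (cone w x hw)) := by
      refine hL n K (supp x) (supp_mem x) _ _ _ _ ?_ ?_
      · exact fun s j hj => cone_out i x hk1i s j hj
      · intro s
        refine trans_mem _ _ (fun y : Geom K => ∀ j ∉ supp x, y.1 j = 0) ?_ ?_ s
        · intro s j hj
          exact seg_out i w hiw (supp x) ((mem_supp x i).2 hk1i) ((mem_supp x w).2 hw) s j hj
        · exact fun s j hj => cone_out w x hw s j hj
    refine ⟨app e (.cons hiw (.nil w)), ?_⟩
    rw [ev_app, ev_single, Path.Homotopic.Quotient.eq.2 h1, Path.Homotopic.Quotient.mk_trans, he,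
      Path.Homotopic.Quotient.trans_assoc, Path.Homotopic.Quotient.trans_assoc,
      ← Path.Homotopic.Quotient.mk_trans, Path.Homotopic.Quotient.eq.2 h2,
      Path.Homotopic.Quotient.eq.2 h3, Path.Homotopic.Quotient.mk_trans]

theorem surj (hX : CVXStmt) (hL : CLSStmt) (K : Cx n) (u v : Fin n)
    (γ : Path (vtx K u) (vtx K v)) : ∃ e : EPath K u v, ev e = .mk γ := by
  have hopen : ∀ i : Fin n, IsOpen {r : I | (γ r).1 i ≠ 0} := by
    intro i
    have : Continuous fun r : I => (γ r).1 i :=
      (continuous_apply i).comp (continuous_subtype_val.comp γ.continuous)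
    exact isOpen_ne.preimage this
  have hcov : Set.univ ⊆ ⋃ i : Fin n, {r : I | (γ r).1 i ≠ 0} := by
    intro r _
    rw [Set.mem_iUnion]
    by_contra h
    push Not at h
    have h1 : ∀ i, (γ r).1 i = 0 := by
      intro i
      have := h i
      simpa using this
    have h2 := (γ r).2.2.1
    rw [Finset.sum_congr rfl (fun i _ => h1 i)] at h2
    simp at h2
  obtain ⟨t, ht0, htm, ⟨N, hN⟩, htc⟩ :=
    exists_monotone_Icc_subset_open_cover_unitInterval hopen hcov
  have hvv : (vtx K v).1 v ≠ 0 := by rw [vtx_apply, if_pos rfl]; exact one_ne_zero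
  obtain ⟨e, he⟩ := claim hX hL K u (vtx K v) γ t ht0 htm htc N (vtx K v) γ
    (fun s => by rw [hN N le_rfl, mul_one]) v hvv
  refine ⟨e, ?_⟩
  rw [he]
  have h1 : (cone v (vtx K v) hvv).Homotopic (Path.refl _) := by
    refine hX n K v _ _ _ _ (fun s => cone_star v _ hvv s) (fun s => ?_)
    rw [Path.refl_apply]
    exact hvv
  rw [Path.Homotopic.Quotient.eq.2 h1, Path.Homotopic.Quotient.mk_refl,
    Path.Homotopic.Quotient.trans_refl]

end EDGaux

open EDGaux in
theorem edg (hX : CVXStmt) (hL : CLSStmt) : EDGStmt := by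
  intro n K
  refine ⟨vtx K, fun {u v} => ev, fun v i => vtx_apply K v i, fun u => ev_nil u, ?_, ?_, ?_, ?_⟩
  · intro u v w h e
    beta_reduce
    rw [ev_single, ev_cons]
  · intro u v h
    refine ⟨seg u v h, ?_, ev_single h⟩
    intro t i
    rw [seg, sline_apply, vtx_apply, vtx_apply]
  · intro u v w h huv hvw huw
    beta_reduce
    rw [ev_cons, ev_single, ev_single, ← Path.Homotopic.Quotient.mk_trans,
      Path.Homotopic.Quotient.eq]
    refine hL n K {u, v, w} h _ _ _ _ ?_ ?_
    · intro s
      refine trans_mem _ _ (fun y : Geom K => ∀ j ∉ ({u, v, w} : Finset (Fin n)), y.1 j = 0) ?_ ?_ s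
      · exact fun s j hj => seg_out u v huv _ (by simp) (by simp) s j hj
      · exact fun s j hj => seg_out v w hvw _ (by simp) (by simp) s j hj
    · exact fun s j hj => seg_out u w huw _ (by simp) (by simp) s j hj
  · intro u v γ
    obtain ⟨γ, rfl⟩ := Path.Homotopic.Quotient.mk_surjective γ
    exact surj hX hL K u v γ

end Pool.T4
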